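import Pool.Agent.Y264.QR.Stm

/-!
# Quasi-invariant measures (StQN, StQW), project QR of helper264
-/

set_option autoImplicit false

namespace Pool.Agent.Y941.QR

open MeasureTheory Set Filter Topology
open Pool.Agent.Y264.QR (Flw StQN StQW)

section

variable {Ω : Type} [MeasurableSpace Ω]

/-- Lebesgue measure on the unit interval -/
noncomputable def lam : Measure ℝ := volume.restrict (Icc (0:ℝ) 1)

instance : IsProbabilityMeasure lam := ⟨by simp [lam]⟩

/-- the averaged measure -/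
noncomputable def QQ (P : Measure Ω) (θ : ℝ → Ω → Ω) : Measure Ω :=
  Measure.map (fun p : ℝ × Ω => θ p.1 p.2) (lam.prod P)

lemma QQ_prob (P : Measure Ω) [IsProbabilityMeasure P] {θ : ℝ → Ω → Ω} (hθ : Flw P θ) :
    IsProbabilityMeasure (QQ P θ) :=
  Measure.isProbabilityMeasure_map hθ.meas.aemeasurable

lemma meas_th {P : Measure Ω} {θ : ℝ → Ω → Ω} (hθ : Flw P θ) (t : ℝ) : Measurable (θ t) :=
  hθ.meas.comp (measurable_prodMk_left (x := t))

lemma P_ac (P : Measure Ω) [IsProbabilityMeasure P] {θ : ℝ → Ω → Ω} (hθ : Flw P θ) :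
    P ≪ QQ P θ := by
  refine Measure.AbsolutelyContinuous.mk fun N hN h0 => ?_
  rw [QQ, Measure.map_apply hθ.meas hN, Measure.measure_prod_null (hθ.meas hN)] at h0
  obtain ⟨t, ht⟩ := h0.exists
  have ht' : P (θ t ⁻¹' N) = 0 := ht
  have h1 : (P.map (θ (-t))).map (θ t) = P := by
    rw [Measure.map_map (meas_th hθ t) (meas_th hθ (-t))]
    have : θ t ∘ θ (-t) = id := by
      funext o
      rw [Function.comp_apply, ← hθ.add, add_neg_cancel, hθ.zero, id]
    rw [this, Measure.map_id]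
  have h2 : P ≪ P.map (θ t) := by
    have := (hθ.ac (-t)).map (meas_th hθ t)
    rwa [h1] at this
  apply h2
  rw [Measure.map_apply (meas_th hθ t) hN]
  exact ht'

theorem qn : StQN := by
  intro Ω _ P _ θ hθ N hN h
  apply P_ac P hθ
  rw [QQ, Measure.map_apply hθ.meas hN, Measure.prod_apply_symm (hθ.meas hN)]
  rw [lintegral_eq_zero_iff (measurable_measure_prodMk_right (hθ.meas hN))]
  refine Eventually.of_forall fun o => ?_
  show lam {t : ℝ | θ t o ∈ N} = 0
  have h1 : volume {t : ℝ | θ t o ∈ N} = 0 := by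
    have := h o
    rw [ae_iff] at this
    simpa using this
  exact Measure.restrict_le_self.absolutelyContinuous h1

lemma rep (P : Measure Ω) [IsProbabilityMeasure P] {θ : ℝ → Ω → Ω} (hθ : Flw P θ) (χ : Ω → ℝ)
    (hχ : Integrable χ P) : ∃ G : Ω → ℝ,
    Integrable (fun p : ℝ × Ω => G (θ p.1 p.2)) (lam.prod P) ∧
    ∀ (Z : Ω → ℝ) (K : ℝ), Measurable Z → (∀ o, |Z o| ≤ K) →
      Integrable (fun p : ℝ × Ω => G (θ p.1 p.2) * Z (θ p.1 p.2)) (lam.prod P) ∧
      ∫ o, χ o * Z o ∂P = ∫ o, ∫ t, G (θ t o) * Z (θ t o) ∂lam ∂P := by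
  have := QQ_prob P hθ
  have hac := P_ac P hθ
  refine ⟨fun o => (P.rnDeriv (QQ P θ) o).toReal * χ o, ?_, ?_⟩
  · have h1 : Integrable (fun o => (P.rnDeriv (QQ P θ) o).toReal * χ o) (QQ P θ) :=
      (integrable_toReal_rnDeriv_mul_iff hac).mpr hχ
    exact (integrable_map_measure h1.1 hθ.meas.aemeasurable).mp h1
  · intro Z K hZ hK
    have h0 : Integrable (fun o => χ o * Z o) P :=
      hχ.mul_bdd hZ.aestronglyMeasurable (Eventually.of_forall hK)
    have h1 : Integrable (fun o => (P.rnDeriv (QQ P θ) o).toReal * (χ o * Z o)) (QQ P θ) :=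
      (integrable_toReal_rnDeriv_mul_iff hac).mpr h0
    have h1' : Integrable (fun o => (P.rnDeriv (QQ P θ) o).toReal * χ o * Z o) (QQ P θ) := by
      simpa only [mul_assoc] using h1
    have h2 : Integrable (fun p : ℝ × Ω => (P.rnDeriv (QQ P θ) (θ p.1 p.2)).toReal *
        χ (θ p.1 p.2) * Z (θ p.1 p.2)) (lam.prod P) :=
      (integrable_map_measure h1'.1 hθ.meas.aemeasurable).mp h1'
    refine ⟨h2, ?_⟩
    have h3 : ∫ o, χ o * Z o ∂P = ∫ o, (P.rnDeriv (QQ P θ) o).toReal * χ o * Z o ∂(QQ P θ) := by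
      rw [← integral_toReal_rnDeriv_mul hac]
      simp only [mul_assoc]
    rw [h3]
    unfold QQ at h1' ⊢
    rw [integral_map hθ.meas.aemeasurable h1'.1]
    exact integral_prod_symm _ h2

end

theorem qw : StQW := by
  intro Ω _ P _ θ hθ X Y K hX hY hXK hYK hlim χ hχ
  obtain ⟨G, hG, hrep⟩ := rep P hθ χ hχ
  have hl : ∀ j, ∫ o, χ o * X j o ∂P = ∫ o, ∫ t, G (θ t o) * X j (θ t o) ∂lam ∂P := fun j =>
    (hrep (X j) K (hX j) (hXK j)).2
  rw [(hrep Y K hY hYK).2]
  simp_rw [hl]
  have hGn : Integrable (fun o => ∫ t, ‖G (θ t o)‖ ∂lam) P := hG.norm.integral_prod_right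
  refine tendsto_integral_of_dominated_convergence (fun o => K * ∫ t, ‖G (θ t o)‖ ∂lam)
    (fun j => ((hrep (X j) K (hX j) (hXK j)).1.integral_prod_right).1) (hGn.const_mul K) ?_ ?_
  · intro j
    filter_upwards [hG.prod_left_ae] with o ho
    calc ‖∫ t, G (θ t o) * X j (θ t o) ∂lam‖ ≤ ∫ t, K * ‖G (θ t o)‖ ∂lam := by
          apply norm_integral_le_of_norm_le (ho.norm.const_mul K)
          refine Eventually.of_forall fun t => ?_
          rw [norm_mul, mul_comm]
          exact mul_le_mul_of_nonneg_right (hXK j _) (norm_nonneg _)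
      _ = K * ∫ t, ‖G (θ t o)‖ ∂lam := integral_const_mul _ _
  · filter_upwards [hG.prod_left_ae] with o ho
    have h1 : Integrable ((Icc (0:ℝ) 1).indicator fun t => G (θ t o)) volume :=
      (integrable_indicator_iff measurableSet_Icc).mpr ho
    have h2 := hlim o _ h1
    have h3 : ∀ Z : Ω → ℝ, ∫ t, (Icc (0:ℝ) 1).indicator (fun t => G (θ t o)) t * Z (θ t o) =
        ∫ t, G (θ t o) * Z (θ t o) ∂lam := by
      intro Z
      have : (fun t => (Icc (0:ℝ) 1).indicator (fun t => G (θ t o)) t * Z (θ t o)) =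
          (Icc (0:ℝ) 1).indicator fun t => G (θ t o) * Z (θ t o) := by
        funext t
        by_cases ht : t ∈ Icc (0:ℝ) 1
        · rw [indicator_of_mem ht, indicator_of_mem ht]
        · rw [indicator_of_notMem ht, indicator_of_notMem ht, zero_mul]
      rw [this, integral_indicator measurableSet_Icc]
      rfl
    rw [← h3 Y]
    simp_rw [← h3 (X _)]
    exact h2

end Pool.Agent.Y941.QR
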