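import Pool.Agent.Y264.QR.Stm2

/-!
# Cosine series on the unit interval (StCos), project QR of helper264
-/

set_option autoImplicit false

namespace Pool.Agent.Y941.QR

open Set Filter Topology MeasureTheory
open scoped Real
open Pool.Agent.Y264.QR (ck StCos)

/-- Parseval's formula on `[-1, 1]` -/
lemma pars2 {F : ℝ → ℝ} (hm : Measurable F) (M : ℝ) (hM : ∀ x, |F x| ≤ M) :
    HasSum (fun n : ℤ => ((∫ x in (-1:ℝ)..1, F x * Real.cos (n * π * x)) ^ 2 +
      (∫ x in (-1:ℝ)..1, F x * Real.sin (n * π * x)) ^ 2) / 4)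
      ((∫ x in (-1:ℝ)..1, F x ^ 2) / 2) := by
  have hab : (-1 : ℝ) < 1 := by norm_num
  have hf : MemLp F 2 (volume.restrict (Ioc (-1:ℝ) 1)) :=
    MemLp.of_bound hm.aestronglyMeasurable M (Eventually.of_forall hM)
  have hmem : MemLp (fun x => (F x : ℂ)) 2 (volume.restrict (Ioc (-1:ℝ) 1)) := hf.ofReal
  have hfi : IntegrableOn F (Ioc (-1:ℝ) 1) := hf.integrable (by norm_num)
  have s1 := hasSum_sq_fourierCoeffOn hab hmem
  have hcosI : ∀ n : ℝ, IntervalIntegrable (fun x => F x * Real.cos (n * π * x)) volume (-1) 1 := by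
    intro n
    rw [intervalIntegrable_iff_integrableOn_Ioc_of_le hab.le]
    refine Integrable.mul_bdd (c := 1) hfi ?_ ?_
    · exact (by fun_prop : Continuous fun x : ℝ => Real.cos (n * π * x)).aestronglyMeasurable
    · exact Filter.Eventually.of_forall fun x => by
        rw [Real.norm_eq_abs]; exact Real.abs_cos_le_one _
  have hsinI : ∀ n : ℝ, IntervalIntegrable (fun x => F x * Real.sin (n * π * x)) volume (-1) 1 := by
    intro n
    rw [intervalIntegrable_iff_integrableOn_Ioc_of_le hab.le]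
    refine Integrable.mul_bdd (c := 1) hfi ?_ ?_
    · exact (by fun_prop : Continuous fun x : ℝ => Real.sin (n * π * x)).aestronglyMeasurable
    · exact Filter.Eventually.of_forall fun x => by
        rw [Real.norm_eq_abs]; exact Real.abs_sin_le_one _
  have hz : ∀ n : ℤ, ‖fourierCoeffOn hab (fun x => (F x : ℂ)) n‖ ^ 2 =
      ((∫ x in (-1:ℝ)..1, F x * Real.cos (n * π * x)) ^ 2 +
      (∫ x in (-1:ℝ)..1, F x * Real.sin (n * π * x)) ^ 2) / 4 := by
    intro n
    rw [fourierCoeffOn_eq_integral]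
    have e1 : ∀ x : ℝ, fourier (-n) (x : AddCircle ((1:ℝ) - (-1))) • (F x : ℂ) =
        ((F x * Real.cos (n * π * x) : ℝ) : ℂ) -
          ((F x * Real.sin (n * π * x) : ℝ) : ℂ) * Complex.I := by
      intro x
      rw [fourier_coe_apply]
      have e2 : 2 * (π : ℂ) * Complex.I * ((-n : ℤ) : ℂ) * x / (((1:ℝ) - (-1) : ℝ) : ℂ) =
          ((-(n * π * x) : ℝ) : ℂ) * Complex.I := by
        push_cast
        ring
      rw [e2, Complex.exp_mul_I, ← Complex.ofReal_cos, ← Complex.ofReal_sin, Real.cos_neg,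
        Real.sin_neg, smul_eq_mul]
      push_cast
      ring
    simp only [e1]
    have c1 : IntervalIntegrable (fun x => ((F x * Real.cos (n * π * x) : ℝ) : ℂ)) volume (-1) 1 :=
      ⟨(hcosI n).1.ofReal, (hcosI n).2.ofReal⟩
    have c2 : IntervalIntegrable (fun x => ((F x * Real.sin (n * π * x) : ℝ) : ℂ) * Complex.I)
        volume (-1) 1 :=
      IntervalIntegrable.mul_const ⟨(hsinI n).1.ofReal, (hsinI n).2.ofReal⟩ _
    rw [intervalIntegral.integral_sub c1 c2,
      intervalIntegral.integral_mul_const, intervalIntegral.integral_ofReal,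
      intervalIntegral.integral_ofReal, norm_smul, mul_pow]
    have h5 : ∀ p q : ℝ, ‖(p : ℂ) - (q : ℂ) * Complex.I‖ ^ 2 = p ^ 2 + q ^ 2 := by
      intro p q
      rw [← Complex.normSq_eq_norm_sq, Complex.normSq_apply]
      simp
      ring
    rw [h5]
    norm_num
    ring
  simp only [hz] at s1
  have h6 : ((1:ℝ) - -1)⁻¹ • ∫ x in (-1:ℝ)..1, ‖(F x : ℂ)‖ ^ 2 = (∫ x in (-1:ℝ)..1, F x ^ 2) / 2 := by
    have h7 : ∀ x : ℝ, ‖(F x : ℂ)‖ ^ 2 = F x ^ 2 := by
      intro x
      rw [Complex.norm_real, Real.norm_eq_abs, sq_abs]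
    simp only [h7]
    rw [smul_eq_mul]
    ring
  rw [h6] at s1
  exact s1

/-- integrals over `[-1, 1]` -/
lemma int_sym (H : ℝ → ℝ) (hH : IntervalIntegrable H volume (-1) 1) :
    ∫ x in (-1:ℝ)..1, H x = (∫ x in (0:ℝ)..1, H (-x)) + ∫ x in (0:ℝ)..1, H x := by
  have h1 : IntervalIntegrable H volume (-1) 0 := hH.mono_set (by
    rw [uIcc_of_le (by norm_num), uIcc_of_le (by norm_num)]
    exact Icc_subset_Icc le_rfl (by norm_num))
  have h2 : IntervalIntegrable H volume 0 1 := hH.mono_set (by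
    rw [uIcc_of_le (by norm_num), uIcc_of_le (by norm_num)]
    exact Icc_subset_Icc (by norm_num) le_rfl)
  rw [← intervalIntegral.integral_add_adjacent_intervals h1 h2]
  congr 1
  rw [intervalIntegral.integral_comp_neg (fun x => H x), neg_zero]

/-- the even extension -/
lemma even_sum {φ : ℝ → ℝ} (hc : Continuous φ) (M : ℝ) (hM : ∀ x, |φ x| ≤ M) :
    HasSum (fun n : ℤ => (∫ x in (0:ℝ)..1, φ x * Real.cos (n * π * x)) ^ 2)
      (∫ x in (0:ℝ)..1, φ x ^ 2) := by
  have hF : Continuous fun x : ℝ => φ |x| := hc.comp continuous_abs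
  have h := pars2 (F := fun x => φ |x|) hF.measurable M (fun x => hM _)
  have e1 : ∀ n : ℤ, ∫ x in (-1:ℝ)..1, φ |x| * Real.cos (n * π * x) =
      2 * ∫ x in (0:ℝ)..1, φ x * Real.cos (n * π * x) := by
    intro n
    rw [int_sym _ (by apply Continuous.intervalIntegrable; fun_prop)]
    have : ∀ x ∈ uIcc (0:ℝ) 1, φ |(-x)| * Real.cos (n * π * -x) =
        φ x * Real.cos (n * π * x) := by
      intro x hx
      rw [uIcc_of_le (by norm_num)] at hx
      rw [abs_neg, abs_of_nonneg hx.1, mul_neg, Real.cos_neg]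
    rw [intervalIntegral.integral_congr this]
    have : ∀ x ∈ uIcc (0:ℝ) 1, φ |x| * Real.cos (n * π * x) =
        φ x * Real.cos (n * π * x) := by
      intro x hx
      rw [uIcc_of_le (by norm_num)] at hx
      rw [abs_of_nonneg hx.1]
    rw [intervalIntegral.integral_congr this]
    ring
  have e2 : ∀ n : ℤ, ∫ x in (-1:ℝ)..1, φ |x| * Real.sin (n * π * x) = 0 := by
    intro n
    rw [int_sym _ (by apply Continuous.intervalIntegrable; fun_prop),
      ← intervalIntegral.integral_add (by apply Continuous.intervalIntegrable; fun_prop)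
        (by apply Continuous.intervalIntegrable; fun_prop)]
    have : ∀ x ∈ uIcc (0:ℝ) 1, φ |(-x)| * Real.sin (n * π * -x) + φ |x| * Real.sin (n * π * x) =
        0 := by
      intro x hx
      rw [abs_neg, mul_neg, Real.sin_neg]
      ring
    rw [intervalIntegral.integral_congr this]
    simp
  have e3 : ∫ x in (-1:ℝ)..1, φ |x| ^ 2 = 2 * ∫ x in (0:ℝ)..1, φ x ^ 2 := by
    rw [int_sym _ (by apply Continuous.intervalIntegrable; fun_prop)]
    have : ∀ x ∈ uIcc (0:ℝ) 1, φ |(-x)| ^ 2 = φ x ^ 2 := by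
      intro x hx
      rw [uIcc_of_le (by norm_num)] at hx
      rw [abs_neg, abs_of_nonneg hx.1]
    rw [intervalIntegral.integral_congr this]
    have : ∀ x ∈ uIcc (0:ℝ) 1, φ |x| ^ 2 = φ x ^ 2 := by
      intro x hx
      rw [uIcc_of_le (by norm_num)] at hx
      rw [abs_of_nonneg hx.1]
    rw [intervalIntegral.integral_congr this]
    ring
  simp only [e1, e2, e3] at h
  have e4 : ∀ n : ℤ, ((2 * ∫ x in (0:ℝ)..1, φ x * Real.cos (n * π * x)) ^ 2 + 0 ^ 2) / 4 =
      (∫ x in (0:ℝ)..1, φ x * Real.cos (n * π * x)) ^ 2 := fun n => by ring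
  simp only [e4] at h
  rwa [mul_div_cancel_left₀ _ (by norm_num : (2:ℝ) ≠ 0)] at h

/-- the odd extension -/
lemma odd_sum {φ : ℝ → ℝ} (hc : Continuous φ) (M : ℝ) (hM : ∀ x, |φ x| ≤ M) :
    HasSum (fun n : ℤ => (∫ x in (0:ℝ)..1, φ x * Real.sin (n * π * x)) ^ 2)
      (∫ x in (0:ℝ)..1, φ x ^ 2) := by
  classical
  set F : ℝ → ℝ := fun x => if 0 < x then φ x else if x = 0 then 0 else -φ (-x) with hF
  have hFm : Measurable F := by
    apply Measurable.ite measurableSet_Ioi hc.measurable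
    apply Measurable.ite (measurableSet_eq_fun measurable_id measurable_const) measurable_const
    exact (hc.measurable.comp measurable_neg).neg
  have hM0 : 0 ≤ M := (abs_nonneg _).trans (hM 0)
  have hFM : ∀ x, |F x| ≤ M := by
    intro x
    simp only [hF]
    split_ifs
    · exact hM x
    · simpa using hM0
    · rw [abs_neg]; exact hM _
  have hneg : ∀ x, F (-x) = -F x := by
    intro x
    simp only [hF]
    rcases lt_trichotomy x 0 with h | h | h
    · rw [if_pos (by linarith), if_neg (by linarith), if_neg (by linarith), neg_neg]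
    · rw [h]; simp
    · rw [if_neg (by linarith), if_neg (by simp; linarith), if_pos h, neg_neg]
  have hpos : ∀ x, 0 < x → F x = φ x := fun x hx => by simp only [hF, if_pos hx]
  have h := pars2 (F := F) hFm M hFM
  have hint : ∀ g : ℝ → ℝ, Continuous g → ∀ a b : ℝ,
      IntervalIntegrable (fun x => F x * g x) volume a b := by
    intro g hg a b
    have h1 : IntervalIntegrable F volume a b := by
      refine (intervalIntegrable_const (c := M)).mono_fun hFm.aestronglyMeasurable ?_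
      refine Eventually.of_forall fun x => ?_
      show ‖F x‖ ≤ ‖M‖
      rw [Real.norm_eq_abs, Real.norm_eq_abs, abs_of_nonneg hM0]
      exact hFM x
    exact h1.mul_continuousOn hg.continuousOn
  have hcg : ∀ g : ℝ → ℝ, ∫ x in (0:ℝ)..1, F x * g x = ∫ x in (0:ℝ)..1, φ x * g x := by
    intro g
    rw [intervalIntegral.integral_of_le (by norm_num), intervalIntegral.integral_of_le (by norm_num)]
    refine setIntegral_congr_fun measurableSet_Ioc fun x hx => ?_
    show F x * g x = φ x * g x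
    rw [hpos x hx.1]
  have e1 : ∀ n : ℤ, ∫ x in (-1:ℝ)..1, F x * Real.cos (n * π * x) = 0 := by
    intro n
    rw [int_sym _ (hint _ (by fun_prop) _ _)]
    have : ∀ x, F (-x) * Real.cos (n * π * -x) = -(F x * Real.cos (n * π * x)) := by
      intro x
      rw [hneg, mul_neg, Real.cos_neg]
      ring
    simp only [this, intervalIntegral.integral_neg]
    ring
  have e2 : ∀ n : ℤ, ∫ x in (-1:ℝ)..1, F x * Real.sin (n * π * x) =
      2 * ∫ x in (0:ℝ)..1, φ x * Real.sin (n * π * x) := by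
    intro n
    rw [int_sym _ (hint _ (by fun_prop) _ _)]
    have : ∀ x, F (-x) * Real.sin (n * π * -x) = F x * Real.sin (n * π * x) := by
      intro x
      rw [hneg, mul_neg, Real.sin_neg]
      ring
    simp only [this]
    rw [hcg fun x => Real.sin (n * π * x)]
    ring
  have e3 : ∫ x in (-1:ℝ)..1, F x ^ 2 = 2 * ∫ x in (0:ℝ)..1, φ x ^ 2 := by
    have hi : IntervalIntegrable (fun x => F x ^ 2) volume (-1) 1 := by
      refine (intervalIntegrable_const (c := M ^ 2)).mono_fun
        (hFm.pow_const 2).aestronglyMeasurable ?_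
      refine Eventually.of_forall fun x => ?_
      show ‖F x ^ 2‖ ≤ ‖M ^ 2‖
      rw [Real.norm_eq_abs, Real.norm_eq_abs, abs_of_nonneg (sq_nonneg M), abs_of_nonneg
        (sq_nonneg (F x)), ← sq_abs (F x)]
      exact pow_le_pow_left₀ (abs_nonneg _) (hFM x) 2
    rw [int_sym _ hi]
    have : ∀ x, F (-x) ^ 2 = F x ^ 2 := by
      intro x
      rw [hneg]
      ring
    simp only [this]
    have h5 : ∫ x in (0:ℝ)..1, F x ^ 2 = ∫ x in (0:ℝ)..1, φ x ^ 2 := by
      rw [intervalIntegral.integral_of_le (by norm_num), intervalIntegral.integral_of_le (by norm_num)]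
      refine setIntegral_congr_fun measurableSet_Ioc fun x hx => ?_
      show F x ^ 2 = φ x ^ 2
      rw [hpos x hx.1]
    rw [h5]
    ring
  simp only [e1, e2, e3] at h
  have e4 : ∀ n : ℤ, (0 ^ 2 + (2 * ∫ x in (0:ℝ)..1, φ x * Real.sin (n * π * x)) ^ 2) / 4 =
      (∫ x in (0:ℝ)..1, φ x * Real.sin (n * π * x)) ^ 2 := fun n => by ring
  simp only [e4] at h
  rwa [mul_div_cancel_left₀ _ (by norm_num : (2:ℝ) ≠ 0)] at h

lemma hs_congr {f g : ℕ → ℝ} {a : ℝ} (h : HasSum f a) (e : g = f) : HasSum g a :=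
  e ▸ h

lemma ck_int (f : ℝ → ℝ) (k : ℕ) : (∫ x in (0:ℝ)..1, f x * ck k x) ^ 2 =
    (if k = 0 then 1 else 2) * (∫ x in (0:ℝ)..1, f x * Real.cos (k * π * x)) ^ 2 := by
  by_cases hk : k = 0
  · rw [if_pos hk, one_mul]
    congr 1
    apply intervalIntegral.integral_congr
    intro x _
    simp [ck, hk]
  · rw [if_neg hk]
    have : ∀ x, f x * ck k x = Real.sqrt 2 * (f x * Real.cos (k * π * x)) := by
      intro x
      simp only [ck, if_neg hk]
      ring
    simp only [this, intervalIntegral.integral_const_mul]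
    rw [mul_pow, Real.sq_sqrt (by norm_num)]

/-- a continuous function on the interval extends -/
lemma extend {f : ℝ → ℝ} (hf : ContinuousOn f (Icc 0 1)) : ∃ (φ : ℝ → ℝ) (M : ℝ), Continuous φ ∧
    (∀ x, |φ x| ≤ M) ∧ ∀ x ∈ Icc (0:ℝ) 1, φ x = f x := by
  refine ⟨IccExtend (zero_le_one : (0:ℝ) ≤ 1) (fun x => f x), ?_⟩
  obtain ⟨M, hM⟩ := isCompact_Icc.exists_bound_of_continuousOn hf
  refine ⟨M, ?_, ?_, ?_⟩
  · exact (continuousOn_iff_continuous_domRestrict.mp hf).Icc_extend'
  · intro x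
    have := hM (projIcc 0 1 zero_le_one x : ℝ) (projIcc 0 1 zero_le_one x).2
    rwa [Real.norm_eq_abs] at this
  · intro x hx
    rw [IccExtend_of_mem _ _ hx]

theorem cos1 (f : ℝ → ℝ) (hf : ContinuousOn f (Icc 0 1)) :
    HasSum (fun k => (∫ x in (0 : ℝ)..1, f x * ck k x) ^ 2) (∫ x in (0 : ℝ)..1, (f x) ^ 2) := by
  obtain ⟨φ, M, hc, hM, he⟩ := extend hf
  have h := even_sum hc M hM
  have e1 : ∀ g : ℝ → ℝ, ∫ x in (0:ℝ)..1, φ x * g x = ∫ x in (0:ℝ)..1, f x * g x := by
    intro g
    apply intervalIntegral.integral_congr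
    intro x hx
    rw [uIcc_of_le (by norm_num)] at hx
    show φ x * g x = f x * g x
    rw [he x hx]
  have e2 : ∫ x in (0:ℝ)..1, φ x ^ 2 = ∫ x in (0:ℝ)..1, f x ^ 2 := by
    apply intervalIntegral.integral_congr
    intro x hx
    rw [uIcc_of_le (by norm_num)] at hx
    show φ x ^ 2 = f x ^ 2
    rw [he x hx]
  have e3 : ∀ n : ℤ, ∫ x in (0:ℝ)..1, φ x * Real.cos (n * π * x) =
      ∫ x in (0:ℝ)..1, f x * Real.cos (n * π * x) := fun n => e1 fun x => Real.cos (n * π * x)
  simp only [e2, e3] at h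
  have h2 := h.nat_add_neg
  have e4 : ∀ n : ℕ, ∫ x in (0:ℝ)..1, f x * Real.cos (((-(n:ℤ) : ℤ) : ℝ) * π * x) =
      ∫ x in (0:ℝ)..1, f x * Real.cos (n * π * x) := by
    intro n
    apply intervalIntegral.integral_congr
    intro x _
    show f x * Real.cos (((-(n:ℤ) : ℤ) : ℝ) * π * x) = f x * Real.cos (n * π * x)
    push_cast
    rw [neg_mul, neg_mul, Real.cos_neg]
  simp only [e4, Int.cast_natCast] at h2
  have h3 := h2.sub (hasSum_ite_eq (0:ℕ)
    ((∫ x in (0:ℝ)..1, f x * Real.cos (((0:ℤ):ℝ) * π * x)) ^ 2))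
  rw [add_sub_cancel_right] at h3
  refine hs_congr h3 ?_
  funext k
  rw [ck_int]
  by_cases hk : k = 0
  · subst hk
    simp
  · rw [if_neg hk, if_neg hk]
    ring

theorem cos2 (f f' : ℝ → ℝ) (hf : ∀ x ∈ Icc (0 : ℝ) 1, HasDerivWithinAt f (f' x) (Icc 0 1) x)
    (hf' : ContinuousOn f' (Icc 0 1)) :
    HasSum (fun k : ℕ => (π * k) ^ 2 * (∫ x in (0 : ℝ)..1, f x * ck k x) ^ 2)
      (∫ x in (0 : ℝ)..1, (f' x) ^ 2) := by
  have hfc : ContinuousOn f (Icc 0 1) := fun x hx => (hf x hx).continuousWithinAt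
  obtain ⟨φ, M, hc, hM, he⟩ := extend hf'
  have h := odd_sum hc M hM
  have e1 : ∀ g : ℝ → ℝ, ∫ x in (0:ℝ)..1, φ x * g x = ∫ x in (0:ℝ)..1, f' x * g x := by
    intro g
    apply intervalIntegral.integral_congr
    intro x hx
    rw [uIcc_of_le (by norm_num)] at hx
    show φ x * g x = f' x * g x
    rw [he x hx]
  have e2 : ∫ x in (0:ℝ)..1, φ x ^ 2 = ∫ x in (0:ℝ)..1, f' x ^ 2 := by
    apply intervalIntegral.integral_congr
    intro x hx
    rw [uIcc_of_le (by norm_num)] at hx
    show φ x ^ 2 = f' x ^ 2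
    rw [he x hx]
  have e3 : ∀ n : ℤ, ∫ x in (0:ℝ)..1, φ x * Real.sin (n * π * x) =
      ∫ x in (0:ℝ)..1, f' x * Real.sin (n * π * x) := fun n => e1 fun x => Real.sin (n * π * x)
  simp only [e2, e3] at h
  have h2 := h.nat_add_neg
  have e4 : ∀ n : ℕ, ∫ x in (0:ℝ)..1, f' x * Real.sin (((-(n:ℤ) : ℤ) : ℝ) * π * x) =
      -∫ x in (0:ℝ)..1, f' x * Real.sin (n * π * x) := by
    intro n
    rw [← intervalIntegral.integral_neg]
    apply intervalIntegral.integral_congr
    intro x _
    show f' x * Real.sin (((-(n:ℤ) : ℤ) : ℝ) * π * x) = -(f' x * Real.sin (n * π * x))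
    push_cast
    rw [neg_mul, neg_mul, Real.sin_neg]
    ring
  simp only [e4, Int.cast_natCast] at h2
  have e5 : (∫ x in (0:ℝ)..1, f' x * Real.sin (((0:ℤ):ℝ) * π * x)) ^ 2 = 0 := by
    simp
  rw [e5, add_zero] at h2
  refine hs_congr h2 ?_
  funext k
  rw [ck_int]
  -- integration by parts
  have hparts : ∫ x in (0:ℝ)..1, (f' x * Real.sin (k * π * x) +
      f x * (Real.cos (k * π * x) * (k * π))) = 0 := by
    have := intervalIntegral.integral_eq_sub_of_hasDerivAt_of_le (zero_le_one : (0:ℝ) ≤ 1)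
      (f := fun x => f x * Real.sin (k * π * x))
      (f' := fun x => f' x * Real.sin (k * π * x) + f x * (Real.cos (k * π * x) * (k * π)))
      (hfc.mul (by fun_prop)) (fun x hx => by
        have h1 : HasDerivAt f (f' x) x :=
          (hf x ⟨hx.1.le, hx.2.le⟩).hasDerivAt (Icc_mem_nhds hx.1 hx.2)
        have h2 : HasDerivAt (fun x : ℝ => Real.sin (k * π * x)) (Real.cos (k * π * x) * (k * π)) x := by
          have := (((hasDerivAt_id x).const_mul (k * π : ℝ))).sin
          simpa using this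
        exact h1.mul h2) (by
        apply ContinuousOn.intervalIntegrable_of_Icc zero_le_one
        exact (hf'.mul (by fun_prop)).add (hfc.mul (by fun_prop)))
    rw [this]
    simp [Real.sin_nat_mul_pi]
  have hi1 : IntervalIntegrable (fun x => f' x * Real.sin (k * π * x)) volume 0 1 := by
    apply ContinuousOn.intervalIntegrable_of_Icc zero_le_one
    exact hf'.mul (by fun_prop)
  have hi2 : IntervalIntegrable (fun x => f x * (Real.cos (k * π * x) * (k * π))) volume 0 1 := by
    apply ContinuousOn.intervalIntegrable_of_Icc zero_le_one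
    exact hfc.mul (by fun_prop)
  rw [intervalIntegral.integral_add hi1 hi2] at hparts
  have e6 : ∫ x in (0:ℝ)..1, f x * (Real.cos (k * π * x) * (k * π)) =
      (k * π) * ∫ x in (0:ℝ)..1, f x * Real.cos (k * π * x) := by
    rw [← intervalIntegral.integral_const_mul]
    apply intervalIntegral.integral_congr
    intro x _
    show f x * (Real.cos (k * π * x) * (k * π)) = k * π * (f x * Real.cos (k * π * x))
    ring
  rw [e6] at hparts
  have e7 : ∫ x in (0:ℝ)..1, f' x * Real.sin (k * π * x) =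
      -((k * π) * ∫ x in (0:ℝ)..1, f x * Real.cos (k * π * x)) := by linarith
  rw [e7]
  by_cases hk : k = 0
  · subst hk
    simp
  · rw [if_neg hk]
    ring

theorem cos : StCos := ⟨cos1, cos2⟩

end Pool.Agent.Y941.QR
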